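import Pool.Agent.Helper40.GR.Scales

/-!
# Goldbach graphs: bounded distances for all `n`, outside a fixed set of vertices of density zero

`nb a m` is the number of the `b ≤ m` for which `a + b` and `|a - b|` are odd primes; `nb a a` is the number of the
representations of `2 a` as a sum of two different odd primes. Let `A ≥ 3`. There is `N` such that for ALL `n` any
two vertices `2 a`, `2 c` of the finite Goldbach graph `G_n` (or of the near Goldbach graph `G(n)`) for which
`nb a m ≥ m / (log m) ^ A` and `nb c m' ≥ m' / (log m') ^ A`, for some `m`, `m'` between `N` and `n`, are at a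
distance of at most `18`.

The numbers `a` for which this condition fails for all `m ≤ a` form a fixed set, which does not depend on `n`, and
which has at most `x / (log x) ^ U` elements up to `x`, for every `U`. So Question 1 holds for the vertices outside a
fixed set of density zero, and what remains are the vertices with unusually few Goldbach representations.

Proof: for every large `m` there is a set `X_m ⊆ {1, …, m}` with mutual distances at most five, which contains
nearly all the numbers up to `m` (library, DiameterFiveH66). So a number with many neighbours `b ≤ m` has one in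
`X_m`. Fix `Z = X_Y` for a large constant `Y`. By a quantitative form of the theorem of Maynard and Tao there is for
every large `m` an element `y` of `Z` with so many neighbours `b ≤ m` that one of them is in `X_m`. So all these sets
`X_m` are linked to the same finite set `Z`.
-/

set_option autoImplicit false

namespace Pool.Agent.Results.MP_443e5f_co.AllScalesH40

open Finset

/-- `m` is an odd prime less than `2 n`. -/
def OddPrimeBelow (n m : ℕ) : Prop := m.Prime ∧ Odd m ∧ m < 2 * n

/-- The finite Goldbach graph `G_n` on `{0, 2, 4, …, 2 n}`: distinct `a`, `b` are adjacent iff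
`(a + b)/2` and `|a - b|/2` are odd primes less than `2 n`. -/
def goldbach (n : ℕ) : SimpleGraph {a : ℕ // Even a ∧ a ≤ 2 * n} where
  Adj a b := a ≠ b ∧ OddPrimeBelow n (((a : ℕ) + b) / 2) ∧ OddPrimeBelow n (Nat.dist a b / 2)
  symm := ⟨fun a b h => ⟨h.1.symm, by rw [add_comm (b : ℕ)]; exact h.2.1,
    by rw [Nat.dist_comm]; exact h.2.2⟩⟩
  loopless := ⟨fun _ h => h.1 rfl⟩

/-- The finite near Goldbach graph `G(n)` on `{2, 4, …, 2 n}`: distinct `a`, `b` are adjacent iff
each of `(a + b)/2` and `|a - b|/2` is `1` or an odd prime less than `2 n`. -/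
def nearGoldbach (n : ℕ) : SimpleGraph {a : ℕ // Even a ∧ 2 ≤ a ∧ a ≤ 2 * n} where
  Adj a b := a ≠ b ∧ (((a : ℕ) + b) / 2 = 1 ∨ OddPrimeBelow n (((a : ℕ) + b) / 2)) ∧
    (Nat.dist a b / 2 = 1 ∨ OddPrimeBelow n (Nat.dist a b / 2))
  symm := ⟨fun a b h => ⟨h.1.symm, by rw [add_comm (b : ℕ)]; exact h.2.1,
    by rw [Nat.dist_comm]; exact h.2.2⟩⟩
  loopless := ⟨fun _ h => h.1 rfl⟩

open Classical in
/-- The number of the `b` with `1 ≤ b ≤ m` for which `a + b` and `|a - b|` are odd primes. -/
noncomputable def nb (a m : ℕ) : ℕ :=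
  ((Icc 1 m).filter fun b => ((a + b).Prime ∧ Odd (a + b)) ∧ ((Nat.dist a b).Prime ∧ Odd (Nat.dist a b))).card

/-- There is `m` with `N ≤ m ≤ n` such that at least `m / (log m) ^ A` of the `b` with `1 ≤ b ≤ m` have the property
that `a + b` and `|a - b|` are odd primes. -/
def Rich (A N n a : ℕ) : Prop := ∃ m : ℕ, N ≤ m ∧ m ≤ n ∧ (m : ℝ) / Real.log m ^ A ≤ nb a m

open Helper40.GR in
lemma rich_iff (A N n a : ℕ) : Rich A N n a ↔ Helper40.GR.Rich A N n a := by
  unfold Rich Helper40.GR.Rich
  have : ∀ m, nb a m = R521.GG.dg (Icc 1 m) a := by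
    intro m
    unfold nb R521.GG.dg R521.GG.R
    congr 1
  simp only [this]

open Classical Helper40.GR in
/-- For `A ≥ 3` there is `N` such that for all `n` any two vertices `u`, `v` of `G_n` (of `G(n)`) for which `u / 2` and
`v / 2` satisfy `Rich A N n` are at a distance of at most `18`; and for all `U` at most `x / (log x) ^ U` of the
`a ≤ x` do not satisfy `Rich A N a` (so that they may fail to satisfy `Rich A N n` for some `n ≥ a`). -/
theorem result (A : ℕ) (hA : 3 ≤ A) : ∃ N : ℕ,
    (∀ n : ℕ, ∀ u v : {a : ℕ // Even a ∧ a ≤ 2 * n}, Rich A N n ((u : ℕ) / 2) → Rich A N n ((v : ℕ) / 2) →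
      (goldbach n).edist u v ≤ 18) ∧
    (∀ n : ℕ, ∀ u v : {a : ℕ // Even a ∧ 2 ≤ a ∧ a ≤ 2 * n}, Rich A N n ((u : ℕ) / 2) → Rich A N n ((v : ℕ) / 2) →
      (nearGoldbach n).edist u v ≤ 18) ∧
    ∀ U : ℕ, ∃ x₀ : ℕ, ∀ x : ℕ, x₀ ≤ x →
      (((Icc 1 x).filter fun a => ¬ Rich A N a a).card : ℝ) ≤ x / Real.log x ^ U := by
  obtain ⟨N, hN⟩ := scales A
  refine ⟨N, ?_, ?_, ?_⟩
  · intro n u v hu hv
    rw [rich_iff] at hu hv
    set φ : ℕ → {a : ℕ // Even a ∧ a ≤ 2 * n} := fun m => if hm : m ≤ n then ⟨2 * m, even_two_mul m, by omega⟩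
      else ⟨0, ⟨0, rfl⟩, by omega⟩ with hφd
    set hh : {a : ℕ // Even a ∧ a ≤ 2 * n} → ℕ := fun v => v.1 / 2 with hhd
    have hφ : ∀ m ∈ Icc 0 n, hh (φ m) = m := by
      intro m hm
      rw [mem_Icc] at hm
      simp only [hφd, hhd, hm.2, dif_pos]
      omega
    have hinj : Function.Injective hh := by
      intro u v huv
      apply Subtype.ext
      obtain ⟨⟨a, hu⟩, _⟩ := u.2
      obtain ⟨⟨b, hv⟩, _⟩ := v.2
      simp only [hhd] at huv
      omega
    have hr : ∀ v, hh v ∈ Icc 0 n := by
      intro v
      have := v.2.2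
      rw [mem_Icc]
      simp only [hhd]
      omega
    have hadj : ∀ a ∈ Icc 0 n, ∀ b ∈ Icc 0 n, R521.GG.R a b → (goldbach n).Adj (φ a) (φ b) := by
      intro a ha b hb hR
      have ha' := (mem_Icc.1 ha).2
      have hb' := (mem_Icc.1 hb).2
      have hne : a ≠ b := by
        rintro rfl
        have := hR.2.1
        rw [Nat.dist_self] at this
        exact Nat.not_prime_zero this
      simp only [hφd, ha', hb', dif_pos]
      refine ⟨?_, ?_, ?_⟩
      · intro h
        have := congrArg Subtype.val h
        simp only at this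
        omega
      · show OddPrimeBelow n ((2 * a + 2 * b) / 2)
        rw [add_two]
        exact ⟨hR.1.1, hR.1.2, by omega⟩
      · show OddPrimeBelow n (Nat.dist (2 * a) (2 * b) / 2)
        rw [dist_two]
        refine ⟨hR.2.1, hR.2.2, ?_⟩
        simp only [Nat.dist]
        omega
    exact_mod_cast up (goldbach n) 0 n φ hh R521.GG.R hφ hinj hr hadj u v 18
      (hN n 0 (by norm_num) _ _ (hr u) (hr v) hu hv)
  · intro n u v hu hv
    rw [rich_iff] at hu hv
    have hn1 : 1 ≤ n := by
      have := u.2.2
      omega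
    set φ : ℕ → {a : ℕ // Even a ∧ 2 ≤ a ∧ a ≤ 2 * n} := fun m =>
      if hm : 1 ≤ m ∧ m ≤ n then ⟨2 * m, even_two_mul m, by omega, by omega⟩ else ⟨2, even_two, by omega, by omega⟩ with hφd
    set hh : {a : ℕ // Even a ∧ 2 ≤ a ∧ a ≤ 2 * n} → ℕ := fun v => v.1 / 2 with hhd
    have hφ : ∀ m ∈ Icc 1 n, hh (φ m) = m := by
      intro m hm
      rw [mem_Icc] at hm
      simp only [hφd, hhd, hm, and_self, dif_pos]
      omega
    have hinj : Function.Injective hh := by
      intro u v huv
      apply Subtype.ext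
      obtain ⟨⟨a, hu⟩, _⟩ := u.2
      obtain ⟨⟨b, hv⟩, _⟩ := v.2
      simp only [hhd] at huv
      omega
    have hr : ∀ v, hh v ∈ Icc 1 n := by
      intro v
      have := v.2.2
      rw [mem_Icc]
      simp only [hhd]
      omega
    have hadj : ∀ a ∈ Icc 1 n, ∀ b ∈ Icc 1 n, R521.GG.R a b → (nearGoldbach n).Adj (φ a) (φ b) := by
      intro a ha b hb hR
      have ha' := mem_Icc.1 ha
      have hb' := mem_Icc.1 hb
      have hne : a ≠ b := by
        rintro rfl
        have := hR.2.1
        rw [Nat.dist_self] at this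
        exact Nat.not_prime_zero this
      simp only [hφd, ha', hb', and_self, dif_pos]
      refine ⟨?_, Or.inr ?_, Or.inr ?_⟩
      · intro h
        have := congrArg Subtype.val h
        simp only at this
        omega
      · show OddPrimeBelow n ((2 * a + 2 * b) / 2)
        rw [add_two]
        exact ⟨hR.1.1, hR.1.2, by omega⟩
      · show OddPrimeBelow n (Nat.dist (2 * a) (2 * b) / 2)
        rw [dist_two]
        refine ⟨hR.2.1, hR.2.2, ?_⟩
        simp only [Nat.dist]
        omega
    exact_mod_cast up (nearGoldbach n) 1 n φ hh R521.GG.R hφ hinj hr hadj u v 18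
      (hN n 1 le_rfl _ _ (hr u) (hr v) hu hv)
  · intro U
    obtain ⟨x₀, hx₀⟩ := rich_dens A N hA U
    refine ⟨x₀, fun x hx => hx₀ x hx _ (filter_subset _ _) ?_⟩
    intro a ha
    rw [mem_filter, rich_iff] at ha
    exact ha.2

end Pool.Agent.Results.MP_443e5f_co.AllScalesH40
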