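import Pool.Agent.Results.MP_443e5f_co.AllScalesH40
import Pool.Agent.Helper40.GR.Every

/-!
# Goldbach graphs: every vertex is joined by an almost prime edge to a core of bounded diameter

A pair `{a, b}` of distinct even numbers is an edge of the graphs of the problem iff `(a + b) / 2` and `|a - b| / 2` are both
odd primes. Call it an almost prime edge if one of the two numbers is an odd prime and the other one has at most three prime
factors.

There is a fixed set `C` of even numbers, which contains all but at most `x / (log x) ^ U` of the even numbers up to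
`2 x`, for every `U`, such that, for ALL `n`, any two elements of `C` in `G_n` (in `G(n)`) are at a distance of at most `18`
there, and for `n ≥ N` EVERY vertex of `G_n` (of `G(n)`) is joined by an almost prime edge to an element of `C`. For all
vertices outside a set with at most `K (log x) ^ B` elements up to `x` the number which is not an odd prime has at most two
prime factors, both large.

So for `n ≥ N` any two vertices of `G_n` (of `G(n)`) are joined by a path of at most `20` edges, all of which with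
the possible exception of the first and the last are edges of `G_n` (of `G(n)`); in particular the graphs with the almost
prime edges are connected with diameter at most `20`.

The set `C` is the one of `AllScalesH40`. Almost prime edges at large numbers `a = 2 x`: every even number `a` is the sum of a
prime `p` and a number `m` with at most three prime factors in the expected number of ways (library, Y882.GX), hence also with
`2 |p - x|` in `C`; two prime factors: theorem of the library on Chen's theorem with few exceptions. For the finitely many small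
numbers `a` one uses the numbers `p + a` with at most three prime factors (library, Y677.KP).
-/

set_option autoImplicit false

namespace Pool.Agent.Results.MP_443e5f_co.EveryVertexH40

open Finset

/-- the vertices of `G_n` -/
abbrev V (n : ℕ) : Type := {a : ℕ // Even a ∧ a ≤ 2 * n}

/-- the vertices of `G(n)` -/
abbrev W (n : ℕ) : Type := {a : ℕ // Even a ∧ 2 ≤ a ∧ a ≤ 2 * n}

/-- `m` is an odd prime less than `2 n`. -/
def OddPrimeBelow (n m : ℕ) : Prop := m.Prime ∧ Odd m ∧ m < 2 * n

/-- The finite Goldbach graph `G_n` on `{0, 2, 4, …, 2 n}`: distinct `a`, `b` are adjacent iff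
`(a + b)/2` and `|a - b|/2` are odd primes less than `2 n`. -/
def goldbach (n : ℕ) : SimpleGraph (V n) where
  Adj a b := a ≠ b ∧ OddPrimeBelow n (((a : ℕ) + b) / 2) ∧ OddPrimeBelow n (Nat.dist a b / 2)
  symm := ⟨fun a b h => ⟨h.1.symm, by rw [add_comm (b : ℕ)]; exact h.2.1,
    by rw [Nat.dist_comm]; exact h.2.2⟩⟩
  loopless := ⟨fun _ h => h.1 rfl⟩

/-- The finite near Goldbach graph `G(n)` on `{2, 4, …, 2 n}`: distinct `a`, `b` are adjacent iff
each of `(a + b)/2` and `|a - b|/2` is `1` or an odd prime less than `2 n`. -/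
def nearGoldbach (n : ℕ) : SimpleGraph (W n) where
  Adj a b := a ≠ b ∧ (((a : ℕ) + b) / 2 = 1 ∨ OddPrimeBelow n (((a : ℕ) + b) / 2)) ∧
    (Nat.dist a b / 2 = 1 ∨ OddPrimeBelow n (Nat.dist a b / 2))
  symm := ⟨fun a b h => ⟨h.1.symm, by rw [add_comm (b : ℕ)]; exact h.2.1,
    by rw [Nat.dist_comm]; exact h.2.2⟩⟩
  loopless := ⟨fun _ h => h.1 rfl⟩

/-- `a ≠ b`, one of the numbers `(a + b)/2`, `|a - b|/2` is an odd prime `p`, and the other number `m` is odd, at least
`2`, and has at most `r` prime factors (counted with multiplicity), all of which are at least `a ^ θ`. -/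
def Link (r : ℕ) (θ : ℝ) (a b : ℕ) : Prop :=
  a ≠ b ∧ ∃ p m : ℕ, p.Prime ∧ Odd p ∧
    (((a + b) / 2 = p ∧ Nat.dist a b / 2 = m) ∨ ((a + b) / 2 = m ∧ Nat.dist a b / 2 = p)) ∧
    2 ≤ m ∧ Odd m ∧ m.primeFactorsList.length ≤ r ∧ ∀ q : ℕ, q.Prime → q ∣ m → (a : ℝ) ^ θ ≤ q

/-- The edges of `G_n` and the almost prime edges. -/
def almostGoldbach (n : ℕ) : SimpleGraph (V n) where
  Adj a b := (goldbach n).Adj a b ∨ Link 3 0 a b
  symm := ⟨fun a b h => h.imp (fun h => h.symm) (fun h => by
    simpa only [Link, add_comm, Nat.dist_comm, ne_comm, Real.rpow_zero] using h)⟩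
  loopless := ⟨fun _ h => h.elim (fun h => h.1 rfl) (fun h => h.1 rfl)⟩

/-- The edges of `G(n)` and the almost prime edges. -/
def almostNear (n : ℕ) : SimpleGraph (W n) where
  Adj a b := (nearGoldbach n).Adj a b ∨ Link 3 0 a b
  symm := ⟨fun a b h => h.imp (fun h => h.symm) (fun h => by
    simpa only [Link, add_comm, Nat.dist_comm, ne_comm, Real.rpow_zero] using h)⟩
  loopless := ⟨fun _ h => h.elim (fun h => h.1 rfl) (fun h => h.1 rfl)⟩

lemma link_of {r : ℕ} {θ : ℝ} {a b : ℕ} (h : Helper40.GR.Lk r θ a b) : Link r θ (2 * a) (2 * b) := by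
  obtain ⟨h1, p, m, hp, ho, h2, h3⟩ := h
  refine ⟨by omega, p, m, hp, ho, ?_, h3⟩
  rw [Helper40.GR.add_two, Helper40.GR.dist_two]
  exact h2

/-- an almost prime edge with large prime factors is an almost prime edge -/
lemma link_zero {θ : ℝ} {a b : ℕ} (h : Link 3 θ a b) : Link 3 0 a b := by
  obtain ⟨h1, p, m, hp, ho, h2, h3, h4, h5, h6⟩ := h
  refine ⟨h1, p, m, hp, ho, h2, h3, h4, h5, fun q hq _ => ?_⟩
  rw [Real.rpow_zero]
  exact_mod_cast hq.one_lt.le

open Classical in
/-- There are a set `C` (of even numbers) and `N` such that: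
(1) for every `U` and all large `x`, at most `x / (log x) ^ U` of the numbers `2 a`, `1 ≤ a ≤ x`, are not in `C`;
(2), (3) for all `n`, any two vertices of `G_n` (of `G(n)`) in `C` are at a distance of at most `18` in `G_n` (in `G(n)`);
(4) for all `n ≥ N` every vertex `u` of `G_n` has a `v` in `C`, `2 ≤ v ≤ 2 n`, such that one of `(u + v)/2`,
`|u - v|/2` is an odd prime and the other one is odd and has at most three prime factors, all at least `u ^ (1 / 9)`;
(5) for all `n` and all vertices `u` of `G_n` outside a set `E`, which has at most `K (log x) ^ B` elements in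
`[1, x]`, `x ≥ 3`, there is such a `v` for which this number has at most two prime factors, all at least `u ^ 0.258`;
(6), (7) for `n ≥ N` the graphs with the edges of `G_n` (of `G(n)`) and the almost prime edges are connected, with diameter
at most `20`. -/
theorem result : ∃ (C : Set ℕ) (N : ℕ),
    (∀ U : ℕ, ∃ x₀ : ℕ, ∀ x : ℕ, x₀ ≤ x →
      (((Icc 1 x).filter fun a => 2 * a ∉ C).card : ℝ) ≤ x / Real.log x ^ U) ∧
    (∀ n : ℕ, ∀ u v : V n, (u : ℕ) ∈ C → (v : ℕ) ∈ C → (goldbach n).edist u v ≤ 18) ∧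
    (∀ n : ℕ, ∀ u v : W n, (u : ℕ) ∈ C → (v : ℕ) ∈ C → (nearGoldbach n).edist u v ≤ 18) ∧
    (∀ n : ℕ, N ≤ n → ∀ u : V n, ∃ v : W n, (v : ℕ) ∈ C ∧ Link 3 (1 / 9) u v) ∧
    (∃ (E : Set ℕ) (K : ℝ) (B : ℕ),
      (∀ x : ℕ, 3 ≤ x → (((Icc 1 x).filter fun u => u ∈ E).card : ℝ) ≤ K * Real.log x ^ B) ∧
      ∀ n : ℕ, ∀ u : V n, (u : ℕ) ∉ E → ∃ v : W n, (v : ℕ) ∈ C ∧ Link 2 (129 / 500) u v) ∧
    (∀ n : ℕ, N ≤ n → ∀ u v : V n, (almostGoldbach n).edist u v ≤ 20) ∧
    ∀ n : ℕ, N ≤ n → ∀ u v : W n, (almostNear n).edist u v ≤ 20 := by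
  obtain ⟨N, h18, h18', hdens⟩ := Pool.Agent.Results.MP_443e5f_co.AllScalesH40.result 3 le_rfl
  obtain ⟨Bad, hBad⟩ : ∃ Bad : ℕ → Prop, ∀ a, Bad a ↔
      ¬ Pool.Agent.Results.MP_443e5f_co.AllScalesH40.Rich 3 N a a := ⟨_, fun _ => Iff.rfl⟩
  have hThin : Helper40.GR.Thin Bad := by
    obtain ⟨x₀, hx⟩ := hdens 3
    refine ⟨x₀, fun x hx' S hS hSB => le_trans ?_ (hx x hx')⟩
    apply Nat.cast_le.2
    apply card_le_card
    intro b hb
    rw [mem_filter]
    exact ⟨hS hb, (hBad b).1 (hSB b hb)⟩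
  have hrich : ∀ n a : ℕ, a ≤ n → ¬ Bad a → Pool.Agent.Results.MP_443e5f_co.AllScalesH40.Rich 3 N n a := by
    intro n a ha hb
    rw [hBad, not_not] at hb
    obtain ⟨m, h1, h2, h3⟩ := hb
    exact ⟨m, h1, h2.trans ha, h3⟩
  obtain ⟨N₁, h3⟩ := Helper40.GR.every3 Bad hThin
  obtain ⟨E, K, B, hE, h2⟩ := Helper40.GR.every2 Bad hThin
  obtain ⟨C, hC⟩ : ∃ C : Set ℕ, C = {v | Even v ∧ ¬ Bad (v / 2)} := ⟨_, rfl⟩
  have hC2 : ∀ a, 2 * a ∈ C ↔ ¬ Bad a := by
    intro a
    rw [hC]
    constructor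
    · intro h
      have := h.2
      rwa [Nat.mul_div_cancel_left a two_pos] at this
    · intro h
      refine ⟨even_two_mul a, ?_⟩
      rwa [Nat.mul_div_cancel_left a two_pos]
  have c2 : ∀ n : ℕ, ∀ u v : V n, (u : ℕ) ∈ C → (v : ℕ) ∈ C → (goldbach n).edist u v ≤ 18 := by
    intro n u v hu hv
    rw [hC] at hu hv
    have e1 := u.2.2
    have e2 := v.2.2
    exact h18 n u v (hrich n _ (by omega) hu.2) (hrich n _ (by omega) hv.2)
  have c3 : ∀ n : ℕ, ∀ u v : W n, (u : ℕ) ∈ C → (v : ℕ) ∈ C → (nearGoldbach n).edist u v ≤ 18 := by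
    intro n u v hu hv
    rw [hC] at hu hv
    have e1 := u.2.2.2
    have e2 := v.2.2.2
    exact h18' n u v (hrich n _ (by omega) hu.2) (hrich n _ (by omega) hv.2)
  have c4 : ∀ n : ℕ, N₁ ≤ n → ∀ u : V n, ∃ v : W n, (v : ℕ) ∈ C ∧ Link 3 (1 / 9) u v := by
    rintro n hn ⟨u, hu, hun⟩
    obtain ⟨a, rfl⟩ := hu.two_dvd
    obtain ⟨b, h4, h5, h6, h7⟩ := h3 a
    exact ⟨⟨2 * b, even_two_mul b, by omega, by omega⟩, (hC2 b).2 h6, link_of h7⟩
  refine ⟨C, N₁, ?_, c2, c3, c4, ⟨E, K, B, hE, ?_⟩, ?_, ?_⟩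
  · intro U
    obtain ⟨x₀, hx⟩ := hdens U
    refine ⟨x₀, fun x hx' => le_trans ?_ (hx x hx')⟩
    apply Nat.cast_le.2
    apply card_le_card
    intro a ha
    rw [mem_filter] at ha ⊢
    refine ⟨ha.1, ?_⟩
    have := ha.2
    rw [hC2, not_not] at this
    exact (hBad a).1 this
  · rintro n ⟨u, hu, hun⟩ huE
    obtain ⟨a, rfl⟩ := hu.two_dvd
    obtain ⟨b, h4, h5, h6, h7⟩ := h2 a huE
    exact ⟨⟨2 * b, even_two_mul b, by omega, by omega⟩, (hC2 b).2 h6, link_of h7⟩
  · intro n hn u v
    obtain ⟨u', hu1, hu2⟩ := c4 n hn u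
    obtain ⟨v', hv1, hv2⟩ := c4 n hn v
    set u₁ : V n := ⟨u', u'.2.1, u'.2.2.2⟩ with hu₁
    set v₁ : V n := ⟨v', v'.2.1, v'.2.2.2⟩ with hv₁
    have e1 : (almostGoldbach n).edist u u₁ ≤ 1 := by
      rw [SimpleGraph.edist_eq_one_iff_adj.2 (show (almostGoldbach n).Adj u u₁ from
        Or.inr (link_zero hu2))]
    have e2 : (almostGoldbach n).edist v₁ v ≤ 1 := by
      rw [SimpleGraph.edist_eq_one_iff_adj.2 (show (almostGoldbach n).Adj v v₁ from
        Or.inr (link_zero hv2)).symm]
    have e3 : (almostGoldbach n).edist u₁ v₁ ≤ 18 :=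
      (SimpleGraph.edist_anti (fun a b h => Or.inl h)).trans (c2 n u₁ v₁ hu1 hv1)
    calc (almostGoldbach n).edist u v ≤ (almostGoldbach n).edist u u₁ + (almostGoldbach n).edist u₁ v :=
          SimpleGraph.edist_triangle
      _ ≤ (almostGoldbach n).edist u u₁ + ((almostGoldbach n).edist u₁ v₁ + (almostGoldbach n).edist v₁ v) :=
          add_le_add le_rfl SimpleGraph.edist_triangle
      _ ≤ 1 + (18 + 1) := add_le_add e1 (add_le_add e3 e2)
      _ = 20 := by norm_num
  · intro n hn u v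
    obtain ⟨u', hu1, hu2⟩ := c4 n hn ⟨u, u.2.1, u.2.2.2⟩
    obtain ⟨v', hv1, hv2⟩ := c4 n hn ⟨v, v.2.1, v.2.2.2⟩
    have e1 : (almostNear n).edist u u' ≤ 1 := by
      rw [SimpleGraph.edist_eq_one_iff_adj.2 (show (almostNear n).Adj u u' from
        Or.inr (link_zero hu2))]
    have e2 : (almostNear n).edist v' v ≤ 1 := by
      rw [SimpleGraph.edist_eq_one_iff_adj.2 (show (almostNear n).Adj v v' from
        Or.inr (link_zero hv2)).symm]
    have e3 : (almostNear n).edist u' v' ≤ 18 :=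
      (SimpleGraph.edist_anti (fun a b h => Or.inl h)).trans (c3 n u' v' hu1 hv1)
    calc (almostNear n).edist u v ≤ (almostNear n).edist u u' + (almostNear n).edist u' v :=
          SimpleGraph.edist_triangle
      _ ≤ (almostNear n).edist u u' + ((almostNear n).edist u' v' + (almostNear n).edist v' v) :=
          add_le_add le_rfl SimpleGraph.edist_triangle
      _ ≤ 1 + (18 + 1) := add_le_add e1 (add_le_add e3 e2)
      _ = 20 := by norm_num

end Pool.Agent.Results.MP_443e5f_co.EveryVertexH40
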