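import Pool.Agent.Helper40.GR.Graphs

/-!
# Goldbach graphs with one of the two primality conditions sieved: the sum is a prime

In the finite Goldbach graph `G_n` and the finite near Goldbach graph `G(n)` both `(a + b)/2` and `|a - b|/2`
have to be primes. Here the condition on `(a + b)/2` is kept, while `|a - b|/2` is only sieved by the primes
`p ≤ y`, as in the graphs `G(p,n)`: it must not be of the form `p k` with `k > 1`. There is `κ > 0` such that for
all large `n` and all `y ≤ n ^ κ` the resulting graphs are connected, of diameter at most seven; two vertices are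
at a distance of at most five if neither is divisible by three, and of at most six if one of them is not. For
`y ≥ 7` the diameter is at least five. For `2 n ≤ y ^ 2` the graphs are `G_n` and `G(n)` themselves.
-/

set_option autoImplicit false

namespace Pool.Agent.Results.MP_443e5f_co.SumPrimeH40

/-- `m` is an odd prime less than `2 n`. -/
def OddPrimeBelow (n m : ℕ) : Prop := m.Prime ∧ Odd m ∧ m < 2 * n

/-- `m` is an odd number with `1 < m < 2 n` which is not of the form `p k` with a prime `p ≤ y` and `k > 1`. -/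
def SievedBelow (y n m : ℕ) : Prop :=
  Odd m ∧ 1 < m ∧ m < 2 * n ∧ ∀ p k : ℕ, p.Prime → p ≤ y → 1 < k → m ≠ p * k

/-- The graph on `{0, 2, 4, …, 2 n}` in which distinct `a`, `b` are adjacent iff `(a + b)/2` is an odd prime less
than `2 n` and `|a - b|/2` satisfies `SievedBelow y n`. -/
def sieved (y n : ℕ) : SimpleGraph {a : ℕ // Even a ∧ a ≤ 2 * n} where
  Adj a b := a ≠ b ∧ OddPrimeBelow n (((a : ℕ) + b) / 2) ∧ SievedBelow y n (Nat.dist a b / 2)
  symm := ⟨fun a b h => ⟨h.1.symm, by rw [add_comm (b : ℕ)]; exact h.2.1,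
    by rw [Nat.dist_comm]; exact h.2.2⟩⟩
  loopless := ⟨fun _ h => h.1 rfl⟩

/-- The graph on `{2, 4, …, 2 n}` in which distinct `a`, `b` are adjacent iff `(a + b)/2` is `1` or an odd prime
less than `2 n`, and `|a - b|/2` is `1` or satisfies `SievedBelow y n`. -/
def nearSieved (y n : ℕ) : SimpleGraph {a : ℕ // Even a ∧ 2 ≤ a ∧ a ≤ 2 * n} where
  Adj a b := a ≠ b ∧ (((a : ℕ) + b) / 2 = 1 ∨ OddPrimeBelow n (((a : ℕ) + b) / 2)) ∧
    (Nat.dist a b / 2 = 1 ∨ SievedBelow y n (Nat.dist a b / 2))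
  symm := ⟨fun a b h => ⟨h.1.symm, by rw [add_comm (b : ℕ)]; exact h.2.1,
    by rw [Nat.dist_comm]; exact h.2.2⟩⟩
  loopless := ⟨fun _ h => h.1 rfl⟩

/-- The finite Goldbach graph `G_n` on `{0, 2, 4, …, 2 n}`: distinct `a`, `b` are adjacent iff
`(a + b)/2` and `|a - b|/2` are odd primes less than `2 n`. -/
def goldbach (n : ℕ) : SimpleGraph {a : ℕ // Even a ∧ a ≤ 2 * n} where
  Adj a b := a ≠ b ∧ OddPrimeBelow n (((a : ℕ) + b) / 2) ∧ OddPrimeBelow n (Nat.dist a b / 2)
  symm := ⟨fun a b h => ⟨h.1.symm, by rw [add_comm (b : ℕ)]; exact h.2.1,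
    by rw [Nat.dist_comm]; exact h.2.2⟩⟩
  loopless := ⟨fun _ h => h.1 rfl⟩

/-- The finite near Goldbach graph `G(n)` on `{2, 4, …, 2 n}`: distinct `a`, `b` are adjacent iff
each of `(a + b)/2` and `|a - b|/2` is `1` or an odd prime less than `2 n`. -/
def nearGoldbach (n : ℕ) : SimpleGraph {a : ℕ // Even a ∧ 2 ≤ a ∧ a ≤ 2 * n} where
  Adj a b := a ≠ b ∧ (((a : ℕ) + b) / 2 = 1 ∨ OddPrimeBelow n (((a : ℕ) + b) / 2)) ∧
    (Nat.dist a b / 2 = 1 ∨ OddPrimeBelow n (Nat.dist a b / 2))
  symm := ⟨fun a b h => ⟨h.1.symm, by rw [add_comm (b : ℕ)]; exact h.2.1,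
    by rw [Nat.dist_comm]; exact h.2.2⟩⟩
  loopless := ⟨fun _ h => h.1 rfl⟩

/-- for `2 n ≤ y ^ 2` the sieve condition is primality -/
lemma sieved_iff {y n m : ℕ} (h : 2 * n ≤ y ^ 2) : SievedBelow y n m ↔ OddPrimeBelow n m := by
  constructor
  · rintro ⟨h1, h2, h3, h4⟩
    refine ⟨?_, h1, h3⟩
    by_contra hcon
    have hm : 0 < m := by omega
    have h5 := Nat.minFac_sq_le_self hm hcon
    have h6 : m.minFac.Prime := Nat.minFac_prime (by omega)
    have h7 : m.minFac ≤ y := by
      by_contra hlt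
      have : y ^ 2 < m.minFac ^ 2 := Nat.pow_lt_pow_left (by omega) (by norm_num)
      omega
    obtain ⟨k, hk⟩ := Nat.minFac_dvd m
    refine h4 m.minFac k h6 h7 ?_ hk
    by_contra hk1
    have : k = 0 ∨ k = 1 := by omega
    rcases this with rfl | rfl
    · omega
    · rw [mul_one] at hk
      rw [hk] at hcon
      exact hcon h6
  · rintro ⟨h1, h2, h3⟩
    refine ⟨h2, h1.one_lt, h3, fun p k hp _ hk hm => ?_⟩
    rw [hm] at h1
    exact (Nat.not_prime_mul hp.one_lt.ne' hk.ne') h1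

/-- for `2 n ≤ y ^ 2` the sieved graphs are the finite Goldbach graph and the finite near Goldbach graph -/
theorem sieved_eq (y n : ℕ) (h : 2 * n ≤ y ^ 2) : sieved y n = goldbach n ∧ nearSieved y n = nearGoldbach n := by
  constructor
  · ext a b
    show a ≠ b ∧ OddPrimeBelow n (((a : ℕ) + b) / 2) ∧ SievedBelow y n (Nat.dist a b / 2) ↔
      a ≠ b ∧ OddPrimeBelow n (((a : ℕ) + b) / 2) ∧ OddPrimeBelow n (Nat.dist a b / 2)
    rw [sieved_iff h]
  · ext a b
    show a ≠ b ∧ (((a : ℕ) + b) / 2 = 1 ∨ OddPrimeBelow n (((a : ℕ) + b) / 2)) ∧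
        (Nat.dist a b / 2 = 1 ∨ SievedBelow y n (Nat.dist a b / 2)) ↔
      a ≠ b ∧ (((a : ℕ) + b) / 2 = 1 ∨ OddPrimeBelow n (((a : ℕ) + b) / 2)) ∧
        (Nat.dist a b / 2 = 1 ∨ OddPrimeBelow n (Nat.dist a b / 2))
    rw [sieved_iff h]

open Finset Helper40.GR

lemma sieved_of_Rg {y n m : ℕ} (h : Rg y m) (hm : m < 2 * n) : SievedBelow y n m := by
  obtain ⟨h1, h2, h3⟩ := h
  refine ⟨Nat.odd_iff.2 h1, by omega, hm, fun p k hp hpy hk hmk => ?_⟩
  have h4 := h3 p hp hpy ⟨k, hmk⟩
  have h5 := hp.two_le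
  rw [hmk] at h4
  nlinarith

lemma OQ_of_sieved {y n m : ℕ} (hy : 7 ≤ y) (h : SievedBelow y n m) : OQ m := by
  obtain ⟨h1, h2, h3, h4⟩ := h
  have key : ∀ p : ℕ, p.Prime → p ≤ 7 → p ∣ m → m = p := by
    intro p hp hp7 hpm
    obtain ⟨k, hk⟩ := hpm
    by_contra hcon
    refine h4 p k hp (by omega) ?_ hk
    by_contra hk1
    have : k = 0 ∨ k = 1 := by omega
    rcases this with rfl | rfl <;> omega
  exact ⟨Nat.odd_iff.1 h1, key 3 (by norm_num) (by norm_num), key 5 (by norm_num) (by norm_num),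
    key 7 (by norm_num) (by norm_num)⟩

lemma OQ_of_prime {n m : ℕ} (h : OddPrimeBelow n m) : OQ m := by
  obtain ⟨h1, h2, -⟩ := h
  have key : ∀ p : ℕ, p.Prime → p ∣ m → m = p := fun p hp hpm => ((Nat.prime_dvd_prime_iff_eq hp h1).1 hpm).symm
  exact ⟨Nat.odd_iff.1 h2, key 3 (by norm_num), key 5 (by norm_num), key 7 (by norm_num)⟩

lemma OQ_one : OQ 1 := by
  unfold OQ
  omega

/-- The diameter of `G` is between five (if `y ≥ 7`) and seven, any two vertices not divisible by three are at a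
distance of at most five, and any two vertices which are not both divisible by three at a distance of at most
six. -/
def DiameterAtMostSeven (y : ℕ) {V : Type} (G : SimpleGraph V) (val : V → ℕ) : Prop :=
  G.Connected ∧ G.ediam ≤ 7 ∧ (7 ≤ y → 5 ≤ G.ediam) ∧
    (∀ u v : V, ¬ 3 ∣ val u → ¬ 3 ∣ val v → G.edist u v ≤ 5) ∧
    (∀ u v : V, ¬ (3 ∣ val u ∧ 3 ∣ val v) → G.edist u v ≤ 6)

/-- There is `κ > 0` such that for all large `n` and all `y ≤ n ^ κ` both sieved graphs are connected with diameter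
at most seven (at least five if `y ≥ 7`), with distances at most five between the vertices not divisible by three
and at most six between vertices of which one is not divisible by three. -/
theorem result : ∃ κ : ℝ, 0 < κ ∧ ∃ N : ℕ, ∀ n : ℕ, N ≤ n → ∀ y : ℕ, (y : ℝ) ≤ (n : ℝ) ^ κ →
    DiameterAtMostSeven y (sieved y n) (fun v => v) ∧ DiameterAtMostSeven y (nearSieved y n) (fun v => v) := by
  obtain ⟨B, κ, hκ, n₀, h⟩ := all_paths
  refine ⟨κ, hκ, n₀ + 1000, fun n hn y hy => ?_⟩
  obtain ⟨-, -, hP⟩ := h n (by omega) y hy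
  have hedge : ∀ a b : ℕ, a ≤ n → b ≤ n → Q2 y a b → a ≠ b ∧ OddPrimeBelow n (a + b) ∧ SievedBelow y n (Nat.dist a b) := by
    rintro a b ha hb ⟨⟨h1, h2⟩, h3⟩
    have hne : a ≠ b := by
      rintro rfl
      have := h3.1
      rw [Nat.dist_self] at this
      omega
    refine ⟨hne, ⟨h1, h2, by omega⟩, sieved_of_Rg h3 ?_⟩
    simp only [Nat.dist]
    omega
  constructor
  · -- the Goldbach version
    set φ : ℕ → {a : ℕ // Even a ∧ a ≤ 2 * n} := fun m => if hm : m ≤ n then ⟨2 * m, even_two_mul m, by omega⟩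
      else ⟨0, ⟨0, rfl⟩, by omega⟩ with hφd
    set hh : {a : ℕ // Even a ∧ a ≤ 2 * n} → ℕ := fun v => v.1 / 2 with hhd
    have hφ : ∀ m ∈ Icc 0 n, hh (φ m) = m := by
      intro m hm
      rw [mem_Icc] at hm
      simp only [hφd, hhd, hm.2, dif_pos]
      omega
    have hinj : Function.Injective hh := by
      intro u v huv
      apply Subtype.ext
      obtain ⟨⟨a, hu⟩, _⟩ := u.2
      obtain ⟨⟨b, hv⟩, _⟩ := v.2
      simp only [hhd] at huv
      omega
    have hr : ∀ v, hh v ∈ Icc 0 n := by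
      intro v
      have := v.2.2
      rw [mem_Icc]
      simp only [hhd]
      omega
    have hadj : ∀ a ∈ Icc 0 n, ∀ b ∈ Icc 0 n, Q2 y a b → (sieved y n).Adj (φ a) (φ b) := by
      intro a ha b hb hQ
      have ha' := (mem_Icc.1 ha).2
      have hb' := (mem_Icc.1 hb).2
      obtain ⟨r1, r2, r3⟩ := hedge a b ha' hb' hQ
      simp only [hφd, ha', hb', dif_pos]
      refine ⟨?_, ?_, ?_⟩
      · intro h
        have := congrArg Subtype.val h
        simp only at this
        omega
      · show OddPrimeBelow n ((2 * a + 2 * b) / 2)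
        rwa [add_two]
      · show SievedBelow y n (Nat.dist (2 * a) (2 * b) / 2)
        rwa [dist_two]
    have hdist := gen_dist (sieved y n) 0 n B (by norm_num) φ hh (Q2 y) hφ hinj hr hadj hP
    have hthree : ∀ v : {a : ℕ // Even a ∧ a ≤ 2 * n}, 3 ∣ hh v ↔ 3 ∣ v.1 := fun v => three_half v.2.1
    obtain ⟨c1, c2⟩ := connected_of (sieved y n) 7 (φ 0) (fun u v => by exact_mod_cast (hdist u v).1)
    refine ⟨c1, by exact_mod_cast c2, fun hy7 => ?_, fun u v h1 h2 => ?_, fun u v h1 => ?_⟩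
    · refine low_ediam (sieved y n) 0 n (by norm_num) (by omega) φ hh hφ ?_ ?_
      · intro u v huv
        obtain ⟨-, h5, h6⟩ := huv
        rw [half_add u.2.1 v.2.1] at h5
        rw [half_dist u.2.1 v.2.1] at h6
        exact ⟨OQ_of_prime h5, OQ_of_sieved hy7 h6⟩
      · intro u v huv hu0
        obtain ⟨-, h5, -⟩ := huv
        rw [half_add u.2.1 v.2.1] at h5
        have h7 : (u : ℕ) / 2 = 0 := hu0
        rw [h7, zero_add] at h5
        exact h5.1
    · exact (hdist u v).2.2 (fun h => h1 ((hthree u).1 h)) (fun h => h2 ((hthree v).1 h))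
    · exact (hdist u v).2.1 (fun h => h1 ⟨(hthree u).1 h.1, (hthree v).1 h.2⟩)
  · -- the near Goldbach version
    set φ : ℕ → {a : ℕ // Even a ∧ 2 ≤ a ∧ a ≤ 2 * n} := fun m =>
      if hm : 1 ≤ m ∧ m ≤ n then ⟨2 * m, even_two_mul m, by omega, by omega⟩ else ⟨2, even_two, by omega, by omega⟩ with hφd
    set hh : {a : ℕ // Even a ∧ 2 ≤ a ∧ a ≤ 2 * n} → ℕ := fun v => v.1 / 2 with hhd
    have hφ : ∀ m ∈ Icc 1 n, hh (φ m) = m := by
      intro m hm
      rw [mem_Icc] at hm
      simp only [hφd, hhd, hm, and_self, dif_pos]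
      omega
    have hinj : Function.Injective hh := by
      intro u v huv
      apply Subtype.ext
      obtain ⟨⟨a, hu⟩, _⟩ := u.2
      obtain ⟨⟨b, hv⟩, _⟩ := v.2
      simp only [hhd] at huv
      omega
    have hr : ∀ v, hh v ∈ Icc 1 n := by
      intro v
      have := v.2.2
      rw [mem_Icc]
      simp only [hhd]
      omega
    have hadj : ∀ a ∈ Icc 1 n, ∀ b ∈ Icc 1 n, Q2 y a b → (nearSieved y n).Adj (φ a) (φ b) := by
      intro a ha b hb hQ
      have ha' := mem_Icc.1 ha
      have hb' := mem_Icc.1 hb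
      obtain ⟨r1, r2, r3⟩ := hedge a b ha'.2 hb'.2 hQ
      simp only [hφd, ha', hb', and_self, dif_pos]
      refine ⟨?_, Or.inr ?_, Or.inr ?_⟩
      · intro h
        have := congrArg Subtype.val h
        simp only at this
        omega
      · show OddPrimeBelow n ((2 * a + 2 * b) / 2)
        rwa [add_two]
      · show SievedBelow y n (Nat.dist (2 * a) (2 * b) / 2)
        rwa [dist_two]
    have hdist := gen_dist (nearSieved y n) 1 n B le_rfl φ hh (Q2 y) hφ hinj hr hadj hP
    have hthree : ∀ v : {a : ℕ // Even a ∧ 2 ≤ a ∧ a ≤ 2 * n}, 3 ∣ hh v ↔ 3 ∣ v.1 := fun v => three_half v.2.1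
    obtain ⟨c1, c2⟩ := connected_of (nearSieved y n) 7 (φ 1) (fun u v => by exact_mod_cast (hdist u v).1)
    refine ⟨c1, by exact_mod_cast c2, fun hy7 => ?_, fun u v h1 h2 => ?_, fun u v h1 => ?_⟩
    · refine low_ediam (nearSieved y n) 1 n le_rfl (by omega) φ hh hφ ?_ ?_
      · intro u v huv
        obtain ⟨-, h5, h6⟩ := huv
        rw [half_add u.2.1 v.2.1] at h5
        rw [half_dist u.2.1 v.2.1] at h6
        refine ⟨?_, ?_⟩
        · rcases h5 with h5 | h5
          · show OQ (u.1 / 2 + v.1 / 2)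
            rw [h5]
            exact OQ_one
          · exact OQ_of_prime h5
        · rcases h6 with h6 | h6
          · show OQ (Nat.dist (u.1 / 2) (v.1 / 2))
            rw [h6]
            exact OQ_one
          · exact OQ_of_sieved hy7 h6
      · intro u v _ hu0
        have := mem_Icc.1 (hr u)
        omega
    · exact (hdist u v).2.2 (fun h => h1 ((hthree u).1 h)) (fun h => h2 ((hthree v).1 h))
    · exact (hdist u v).2.1 (fun h => h1 ⟨(hthree u).1 h.1, (hthree v).1 h.2⟩)

end Pool.Agent.Results.MP_443e5f_co.SumPrimeH40
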